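import Pool.Agent.W258.P4.Cons

/-!
# Quadratic form inequalities for 4 x 4 Schur power matrices
-/

set_option autoImplicit false
open Matrix
open scoped ComplexOrder BigOperators

namespace Pool.Agent.W279.P4

open Pool.W258.P4

open scoped MatrixOrder in
/-- positive semidefinite matrices are Gram matrices -/
theorem factor {𝕜 : Type*} [RCLike 𝕜] {n : ℕ} (A : Matrix (Fin n) (Fin n) 𝕜)
    (hA : A.PosSemidef) : ∃ V : Matrix (Fin n) (Fin n) 𝕜, A = Vᴴ * V := by
  obtain ⟨X, hX, -, h⟩ := CFC.exists_sqrt_of_isSelfAdjoint_of_quasispectrumRestricts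
    hA.isHermitian (QuasispectrumRestricts.nnreal_of_nonneg hA.nonneg)
  refine ⟨X, ?_⟩
  have h1 : Xᴴ = X := hX.star_eq
  rw [h1]
  exact h.symm

theorem quad (A : Matrix (Fin 4) (Fin 4) ℂ) (x : Equiv.Perm (Fin 4) → ℂ) :
    (∑ σ : Equiv.Perm (Fin 4), ∑ τ : Equiv.Perm (Fin 4),
        star (x σ) * (∏ i, A (σ i) (τ i)) * x τ) =
      ∑ ρ : Equiv.Perm (Fin 4), pr A ρ * ∑ σ : Equiv.Perm (Fin 4),
        (starRingEnd ℂ) (x σ) * x (ρ * σ) := by
  have h1 : ∀ σ : Equiv.Perm (Fin 4), ∑ τ : Equiv.Perm (Fin 4),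
      star (x σ) * (∏ i, A (σ i) (τ i)) * x τ =
      ∑ ρ : Equiv.Perm (Fin 4), pr A ρ * ((starRingEnd ℂ) (x σ) * x (ρ * σ)) := by
    intro σ
    rw [← Equiv.sum_comp (Equiv.mulRight σ)]
    refine Finset.sum_congr rfl fun ρ _ => ?_
    have h2 : ∏ i, A (σ i) ((Equiv.mulRight σ ρ) i) = pr A ρ := by
      unfold pr
      rw [← Equiv.prod_comp σ (fun t => A t (ρ t))]
      rfl
    rw [h2]
    show star (x σ) * pr A ρ * x (ρ * σ) = _
    rw [starRingEnd_apply]
    ring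
  rw [Finset.sum_congr rfl fun σ _ => h1 σ, Finset.sum_comm]
  refine Finset.sum_congr rfl fun ρ _ => ?_
  rw [Finset.mul_sum]

/-- the Rayleigh quotients of the Schur power matrix of a positive semidefinite 4 x 4 matrix are
at most the permanent -/
theorem rayleigh (A : Matrix (Fin 4) (Fin 4) ℂ) (hA : A.PosSemidef)
    (x : Equiv.Perm (Fin 4) → ℂ) :
    (∑ σ : Equiv.Perm (Fin 4), ∑ τ : Equiv.Perm (Fin 4),
        star (x σ) * (∏ i, A (σ i) (τ i)) * x τ).re
      ≤ A.permanent.re * ∑ σ : Equiv.Perm (Fin 4), ‖x σ‖ ^ 2 := by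
  have h := qreg_nonneg A hA x
  have h1 : Qreg A x = A.permanent * ((∑ σ : Equiv.Perm (Fin 4), ‖x σ‖ ^ 2 : ℝ) : ℂ) -
      ∑ ρ : Equiv.Perm (Fin 4), pr A ρ * ∑ σ : Equiv.Perm (Fin 4),
        (starRingEnd ℂ) (x σ) * x (ρ * σ) := by
    rw [permanent_eq_pr, Finset.sum_mul, ← Finset.sum_sub_distrib]
    unfold Qreg
    refine Finset.sum_congr rfl fun ρ _ => ?_
    rw [← mul_sub]
    congr 1
    push_cast
    rw [← Finset.sum_sub_distrib]
    refine Finset.sum_congr rfl fun σ _ => ?_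
    rw [mul_sub, ← Complex.conj_mul']
  rw [h1, Complex.sub_re, Complex.re_mul_ofReal] at h
  rw [quad]
  linarith

/-- the sum over one index is the permanent -/
theorem row_sum (M : Matrix (Fin 4) (Fin 4) ℂ) (σ : Equiv.Perm (Fin 4)) :
    ∑ τ : Equiv.Perm (Fin 4), ∏ i, M (σ i) (τ i) = M.permanent := by
  rw [← Equiv.sum_comp (Equiv.mulRight σ), permanent_eq_pr]
  refine Finset.sum_congr rfl fun ρ _ => ?_
  unfold pr
  rw [← Equiv.prod_comp σ (fun t => M t (ρ t))]
  rfl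

/-- the inequality of Bapat and Sunder for 4 x 4 matrices -/
theorem bapat_sunder (A B : Matrix (Fin 4) (Fin 4) ℂ) (hA : A.PosSemidef) (hB : B.PosSemidef) :
    (Matrix.permanent (Matrix.of fun i j => A i j * B i j)).re ≤
      A.permanent.re * (∏ i, B i i).re := by
  classical
  obtain ⟨V, hV⟩ := factor B hB
  have hBij : ∀ i j, B i j = ∑ l, star (V l i) * V l j := by
    intro i j
    rw [hV, Matrix.mul_apply]
    rfl
  let y : (Fin 4 → Fin 4) → Equiv.Perm (Fin 4) → ℂ := fun k σ => ∏ t, V (k t) (σ t)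
  have hy : ∀ σ τ : Equiv.Perm (Fin 4), ∑ k : Fin 4 → Fin 4, star (y k σ) * y k τ =
      ∏ t, B (σ t) (τ t) := by
    intro σ τ
    have : ∏ t, B (σ t) (τ t) = ∏ t, ∑ l ∈ (Finset.univ : Finset (Fin 4)),
        star (V l (σ t)) * V l (τ t) := Finset.prod_congr rfl fun t _ => hBij _ _
    rw [this, Finset.prod_univ_sum, Fintype.piFinset_univ]
    refine Finset.sum_congr rfl fun k _ => ?_
    show star (∏ t, V (k t) (σ t)) * ∏ t, V (k t) (τ t) = _
    rw [star_prod, ← Finset.prod_mul_distrib]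
  have h1 : ∀ k, (∑ σ : Equiv.Perm (Fin 4), ∑ τ : Equiv.Perm (Fin 4),
        star (y k σ) * (∏ i, A (σ i) (τ i)) * y k τ).re
      ≤ A.permanent.re * ∑ σ : Equiv.Perm (Fin 4), ‖y k σ‖ ^ 2 := fun k => rayleigh A hA (y k)
  have h2 := Finset.sum_le_sum fun (k : Fin 4 → Fin 4) (_ : k ∈ Finset.univ) => h1 k
  rw [← Complex.re_sum, ← Finset.mul_sum] at h2
  have h3 : ∑ k : Fin 4 → Fin 4, ∑ σ : Equiv.Perm (Fin 4), ∑ τ : Equiv.Perm (Fin 4),
        star (y k σ) * (∏ i, A (σ i) (τ i)) * y k τ =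
      24 * Matrix.permanent (Matrix.of fun i j => A i j * B i j) := by
    rw [Finset.sum_comm]
    have h4 : ∀ σ : Equiv.Perm (Fin 4), ∑ k : Fin 4 → Fin 4, ∑ τ : Equiv.Perm (Fin 4),
        star (y k σ) * (∏ i, A (σ i) (τ i)) * y k τ =
        Matrix.permanent (Matrix.of fun i j => A i j * B i j) := by
      intro σ
      rw [Finset.sum_comm, ← row_sum _ σ]
      refine Finset.sum_congr rfl fun τ _ => ?_
      have h5 : ∏ i, (Matrix.of fun i j => A i j * B i j) (σ i) (τ i) =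
          (∏ i, A (σ i) (τ i)) * ∏ t, B (σ t) (τ t) := by
        rw [← Finset.prod_mul_distrib]
        rfl
      rw [h5, ← hy σ τ, Finset.mul_sum]
      refine Finset.sum_congr rfl fun k _ => ?_
      ring
    rw [Finset.sum_congr rfl fun σ _ => h4 σ, Finset.sum_const, Finset.card_univ,
      Fintype.card_perm, Fintype.card_fin]
    simp [Nat.factorial]
  have h6 : ((∑ k : Fin 4 → Fin 4, ∑ σ : Equiv.Perm (Fin 4), ‖y k σ‖ ^ 2 : ℝ) : ℂ) =
      24 * ∏ i, B i i := by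
    rw [Finset.sum_comm]
    push_cast
    have h7 : ∀ σ : Equiv.Perm (Fin 4), ∑ k : Fin 4 → Fin 4, ((‖y k σ‖ : ℝ) : ℂ) ^ 2 =
        ∏ i, B i i := by
      intro σ
      rw [← Equiv.prod_comp σ (fun t => B t t), ← hy σ σ]
      refine Finset.sum_congr rfl fun k _ => ?_
      rw [← Complex.conj_mul']
      rfl
    rw [Finset.sum_congr rfl fun σ _ => h7 σ, Finset.sum_const, Finset.card_univ,
      Fintype.card_perm, Fintype.card_fin]
    simp [Nat.factorial]
  have h8 : (∑ k : Fin 4 → Fin 4, ∑ σ : Equiv.Perm (Fin 4), ‖y k σ‖ ^ 2 : ℝ) =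
      24 * (∏ i, B i i).re := by
    have := congrArg Complex.re h6
    rw [Complex.ofReal_re] at this
    rw [this]
    simp
  rw [h3, h8] at h2
  have h9 : (24 * Matrix.permanent (Matrix.of fun i j => A i j * B i j)).re =
      24 * (Matrix.permanent (Matrix.of fun i j => A i j * B i j)).re := by simp
  rw [h9] at h2
  linarith

/-- the inequality of Marcus for 4 x 4 matrices -/
theorem prod_diag_le (A : Matrix (Fin 4) (Fin 4) ℂ) (hA : A.PosSemidef) :
    (∏ i, A i i).re ≤ A.permanent.re := by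
  classical
  have h := rayleigh A hA (Pi.single 1 1)
  have h1 : ∑ σ : Equiv.Perm (Fin 4), ∑ τ : Equiv.Perm (Fin 4),
        star ((Pi.single 1 1 : Equiv.Perm (Fin 4) → ℂ) σ) * (∏ i, A (σ i) (τ i)) *
          (Pi.single 1 1 : Equiv.Perm (Fin 4) → ℂ) τ = ∏ i, A i i := by
    rw [Finset.sum_eq_single 1, Finset.sum_eq_single 1]
    · simp
    · intro τ _ hτ
      rw [Pi.single_eq_of_ne hτ, mul_zero]
    · intro h
      exact absurd (Finset.mem_univ _) h
    · intro σ _ hσ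
      refine Finset.sum_eq_zero fun τ _ => ?_
      rw [Pi.single_eq_of_ne hσ, star_zero, zero_mul, zero_mul]
    · intro h
      exact absurd (Finset.mem_univ _) h
  have h2 : ∑ σ : Equiv.Perm (Fin 4), ‖(Pi.single 1 1 : Equiv.Perm (Fin 4) → ℂ) σ‖ ^ 2 = 1 := by
    rw [Finset.sum_eq_single 1]
    · simp
    · intro τ _ hτ
      rw [Pi.single_eq_of_ne hτ]
      simp
    · intro h
      exact absurd (Finset.mem_univ _) h
  rw [h1, h2, mul_one] at h
  exact h

/-- the permanent of the entrywise square -/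
theorem square (A : Matrix (Fin 4) (Fin 4) ℝ) (hA : A.PosSemidef) :
    Matrix.permanent (Matrix.of fun i j => A i j ^ 2) ≤ A.permanent * ∏ i, A i i ∧
      A.permanent * ∏ i, A i i ≤ A.permanent ^ 2 := by
  obtain ⟨V, hV⟩ := factor A hA
  have hC : (A.map ((↑) : ℝ → ℂ)).PosSemidef := by
    have : A.map ((↑) : ℝ → ℂ) = (V.map ((↑) : ℝ → ℂ))ᴴ * (V.map ((↑) : ℝ → ℂ)) := by
      ext i j
      rw [hV, Matrix.map_apply, Matrix.mul_apply, Matrix.mul_apply]
      push_cast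
      refine Finset.sum_congr rfl fun l _ => ?_
      simp [Matrix.conjTranspose_apply]
    rw [this]
    exact Matrix.posSemidef_conjTranspose_mul_self _
  have hper : ∀ M : Matrix (Fin 4) (Fin 4) ℝ,
      (M.map ((↑) : ℝ → ℂ)).permanent = ((M.permanent : ℝ) : ℂ) := by
    intro M
    unfold Matrix.permanent
    push_cast
    rfl
  have h1 := bapat_sunder _ _ hC hC
  have h2 := prod_diag_le _ hC
  have h3 : (Matrix.of fun i j => (A.map ((↑) : ℝ → ℂ)) i j * (A.map ((↑) : ℝ → ℂ)) i j) =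
      (Matrix.of fun i j => A i j ^ 2 : Matrix (Fin 4) (Fin 4) ℝ).map ((↑) : ℝ → ℂ) := by
    ext i j
    simp [sq]
  have h4 : (∏ i, (A.map ((↑) : ℝ → ℂ)) i i).re = ∏ i, A i i := by
    have : ∏ i, (A.map ((↑) : ℝ → ℂ)) i i = ((∏ i, A i i : ℝ) : ℂ) := by
      push_cast
      rfl
    rw [this, Complex.ofReal_re]
  rw [h3, hper, hper, h4, Complex.ofReal_re, Complex.ofReal_re] at h1
  rw [hper, h4, Complex.ofReal_re] at h2
  have hd : 0 ≤ ∏ i, A i i := Finset.prod_nonneg fun i _ => hA.diag_nonneg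
  refine ⟨h1, ?_⟩
  rw [sq]
  exact mul_le_mul_of_nonneg_left h2 (hd.trans h2)

end Pool.Agent.W279.P4
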